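import Pool.Agent.Work.MP_2176bb_mtc.All

/-!
# MP_d6cff3_nt: the metric form

For almost every pair `(t, a)` of positive reals and every `ε > 0`, for all large `n` there are
at least `c n / (log n)^4` integers `k` with `n < k < (1 + ε) n` for which `π(k)` and `π(t k^a)`
are both prime.  The problem is the case `(t, a) = (1, 2)`, `ε = 1`.
-/

set_option autoImplicit false

open MeasureTheory

namespace Pool.Agent.Results.MP_d6cff3_nt.AlmostAllPairs

open Classical in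
theorem result :
    ∀ᵐ q : ℝ × ℝ, 0 < q.1 → 0 < q.2 → ∀ ε : ℝ, 0 < ε → ∃ c : ℝ, 0 < c ∧ ∃ N : ℕ,
      ∀ n : ℕ, N ≤ n → c * n / (Real.log n) ^ 4 ≤
        (((Finset.Ioo n ⌈(1 + ε) * n⌉₊).filter (fun k => (Nat.primeCounting k).Prime ∧
          (Nat.primeCounting ⌊q.1 * (k : ℝ) ^ q.2⌋₊).Prime)).card : ℝ) :=
  Pool.Mtc.p_FINC Pool.Mtc.all_MAINC Pool.Mtc.all_KDK

end Pool.Agent.Results.MP_d6cff3_nt.AlmostAllPairs
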